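import Pool.Agent.Q19.VX.Tower

/-!
# A torsion homomorphic image of an ultraproduct without divisible subgroups (MP_70ec2f_al)
-/

set_option autoImplicit false

namespace Pool.Agent.Results.MP_70ec2f_al.NoDivisibleSubgroup

/-- the sequences `g` with `{i | g i = 1}` in the ultrafilter `U` -/
def Null (G : ℕ → Type) [∀ i, Group (G i)] (U : Ultrafilter ℕ) : Subgroup (∀ i, G i) where
  carrier := {g | {i | g i = 1} ∈ U}
  one_mem' := by
    show {i | (1 : ∀ i, G i) i = 1} ∈ U
    exact Filter.univ_mem' (fun i => rfl)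
  mul_mem' := by
    intro a b ha hb
    show {i | a i * b i = 1} ∈ U
    filter_upwards [ha, hb] with i h1 h2
    rw [h1, h2, one_mul]
  inv_mem' := by
    intro a ha
    show {i | (a i)⁻¹ = 1} ∈ U
    filter_upwards [ha] with i h1
    rw [h1, inv_one]

instance (G : ℕ → Type) [∀ i, Group (G i)] (U : Ultrafilter ℕ) : (Null G U).Normal where
  conj_mem := by
    intro a ha g
    show {i | g i * a i * (g i)⁻¹ = 1} ∈ U
    filter_upwards [ha] with i h1
    rw [h1, mul_one, mul_inv_cancel]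

/-- the ultraproduct of the groups `G i` -/
abbrev UProd (G : ℕ → Type) [∀ i, Group (G i)] (U : Ultrafilter ℕ) : Type :=
  (∀ i, G i) ⧸ Null G U

/-- nonprincipal ultrafilters -/
def Nonprincipal (U : Ultrafilter ℕ) : Prop := ∀ i : ℕ, ({i} : Set ℕ) ∉ U

/-- homomorphic images of nonprincipal ultraproducts over the natural numbers -/
def IsUI (Q : Type) [Group Q] : Prop :=
  ∃ (G : ℕ → Type) (_ : ∀ i, Group (G i)) (U : Ultrafilter ℕ), Nonprincipal U ∧
    ∃ f : UProd G U →* Q, Function.Surjective f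

/-- bounded torsion groups -/
def BoundedTorsion (H : Type) [Group H] : Prop := ∃ n : ℕ, 1 ≤ n ∧ ∀ h : H, h ^ n = 1

/-- unbounded torsion groups -/
def UnboundedTorsion (H : Type) [Group H] : Prop :=
  (∀ h : H, IsOfFinOrder h) ∧ ¬ BoundedTorsion H

/-- divisible subgroups -/
def DivisibleSubgroup {H : Type} [Group H] (D : Subgroup H) : Prop :=
  ∀ d ∈ D, ∀ n : ℕ, 1 ≤ n → ∃ x ∈ D, x ^ n = d

/-- For all large primes `p` there is a `p`-group `K` such that for every ultrafilter `U` the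
ultrapower of `K` has an unbounded `p`-torsion quotient without nontrivial elements of infinite
`p`-height. -/
theorem quot : ∃ p0 : ℕ, ∀ p : ℕ, p.Prime → p0 ≤ p → ∃ (K : Type) (_ : Group K),
    (∀ k : K, ∃ m : ℕ, k ^ p ^ m = 1) ∧ ∀ U : Ultrafilter ℕ,
      ∃ (Q : Type) (_ : Group Q) (f : UProd (fun _ => K) U →* Q), Function.Surjective f ∧
        (∀ q : Q, ∃ m : ℕ, q ^ p ^ m = 1) ∧ ¬ BoundedTorsion Q ∧
        ∀ q : Q, (∀ m : ℕ, ∃ x : Q, x ^ p ^ m = q) → q = 1 := by
  obtain ⟨p0, hp0⟩ := Pool.Agent.Q19.VX.tower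
  refine ⟨p0, fun p hp hpp => ?_⟩
  obtain ⟨K, _, S, _, π, hexp, hlev, hord, hsep⟩ := hp0 p hp hpp
  refine ⟨K, inferInstance, ?_, ?_⟩
  · intro k
    by_cases hk : ∀ m, π m k = 1
    · exact ⟨0, by rw [hsep k hk, one_pow]⟩
    · push Not at hk
      obtain ⟨m, hm⟩ := hk
      exact ⟨m, hlev m k hm⟩
  intro U
  let N : Subgroup (ℕ → K) :=
    { carrier := {g | ∀ m, {i | π m (g i) = 1} ∈ U}
      one_mem' := by
        intro m
        show {i | π m ((1 : ℕ → K) i) = 1} ∈ U
        exact Filter.univ_mem' (fun i => map_one (π m))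
      mul_mem' := by
        intro a b ha hb m
        show {i | π m (a i * b i) = 1} ∈ U
        filter_upwards [ha m, hb m] with i h1 h2
        rw [map_mul, h1, h2, one_mul]
      inv_mem' := by
        intro a ha m
        show {i | π m (a i)⁻¹ = 1} ∈ U
        filter_upwards [ha m] with i h1
        rw [map_inv, h1, inv_one] }
  have memN : ∀ g : ℕ → K, g ∈ N ↔ ∀ m, {i | π m (g i) = 1} ∈ U := fun _ => Iff.rfl
  have hN : N.Normal := by
    constructor
    intro a ha g m
    show {i | π m (g i * a i * (g i)⁻¹) = 1} ∈ U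
    filter_upwards [ha m] with i h1
    rw [map_mul, map_mul, map_inv, h1, mul_one, mul_inv_cancel]
  have hle : Null (fun _ => K) U ≤ N := by
    intro g hg m
    show {i | π m (g i) = 1} ∈ U
    filter_upwards [hg] with i h1
    rw [h1, map_one]
  refine ⟨(ℕ → K) ⧸ N, inferInstance,
    QuotientGroup.lift (Null (fun _ => K) U) (QuotientGroup.mk' N) (fun g hg => by
      exact (QuotientGroup.eq_one_iff g).2 (hle hg)), ?_, ?_, ?_, ?_⟩
  · intro q
    obtain ⟨g, rfl⟩ := QuotientGroup.mk_surjective q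
    exact ⟨((g : ℕ → K) : UProd (fun _ => K) U), rfl⟩
  · intro q
    obtain ⟨g, rfl⟩ := QuotientGroup.mk_surjective q
    by_cases hg : g ∈ N
    · refine ⟨0, ?_⟩
      rw [(QuotientGroup.eq_one_iff g).2 hg, one_pow]
    · rw [memN] at hg
      push Not at hg
      obtain ⟨m, hm⟩ := hg
      refine ⟨m, ?_⟩
      rw [← QuotientGroup.mk_pow, QuotientGroup.eq_one_iff]
      have h1 : {i | π m (g i) = 1}ᶜ ∈ U := Ultrafilter.compl_mem_iff_notMem.2 hm
      intro l
      show {i | π l (g i ^ p ^ m) = 1} ∈ U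
      filter_upwards [h1] with i h2
      rw [hlev m (g i) h2, map_one]
  · rintro ⟨n, hn, h⟩
    obtain ⟨k, hk⟩ := hord n
    have h1 := h (((fun _ => k : ℕ → K)) : (ℕ → K) ⧸ N)
    rw [← QuotientGroup.mk_pow, QuotientGroup.eq_one_iff, memN] at h1
    obtain ⟨i, hi⟩ := U.nonempty_of_mem (h1 (n + 1))
    have h2 : π (n + 1) (k ^ n) = 1 := hi
    rw [map_pow] at h2
    have h3 := Nat.le_of_dvd (by omega) (orderOf_dvd_of_pow_eq_one h2)
    rw [hk] at h3
    have h4 : n + 1 < p ^ (n + 1) := Nat.lt_pow_self hp.one_lt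
    omega
  · intro q hq
    obtain ⟨g, rfl⟩ := QuotientGroup.mk_surjective q
    rw [QuotientGroup.eq_one_iff, memN]
    intro m
    obtain ⟨x, hx⟩ := hq m
    obtain ⟨y, rfl⟩ := QuotientGroup.mk_surjective x
    rw [← QuotientGroup.mk_pow] at hx
    have h1 : (y ^ p ^ m)⁻¹ * g ∈ N := QuotientGroup.eq.1 hx
    have h2 : {i | π m (((y ^ p ^ m)⁻¹ * g) i) = 1} ∈ U := h1 m
    filter_upwards [h2] with i h3
    have h4 : π m ((y i ^ p ^ m)⁻¹ * g i) = 1 := h3
    rw [map_mul, map_inv, map_pow, hexp, inv_one, one_mul] at h4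
    exact h4

/-- There is a homomorphic image of a nonprincipal ultraproduct over `ℕ` which is an unbounded
torsion group and whose only divisible subgroup is the trivial one. Moreover for all large primes
`p` there is a `p`-group `K` such that for every nonprincipal ultrafilter `U` on `ℕ` the ultrapower
of `K` has an unbounded `p`-torsion homomorphic image in which only `1` has a `p ^ m`-th root for
every `m`. -/
theorem result :
    (∃ (Q : Type) (_ : Group Q), IsUI Q ∧ UnboundedTorsion Q ∧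
      ∀ D : Subgroup Q, DivisibleSubgroup D → D = ⊥) ∧
    ∃ p0 : ℕ, ∀ p : ℕ, p.Prime → p0 ≤ p → ∃ (K : Type) (_ : Group K),
      (∀ k : K, ∃ m : ℕ, k ^ p ^ m = 1) ∧ ∀ U : Ultrafilter ℕ, Nonprincipal U →
        ∃ (Q : Type) (_ : Group Q) (f : UProd (fun _ => K) U →* Q), Function.Surjective f ∧
          (∀ q : Q, ∃ m : ℕ, q ^ p ^ m = 1) ∧ ¬ BoundedTorsion Q ∧
          ∀ q : Q, (∀ m : ℕ, ∃ x : Q, x ^ p ^ m = q) → q = 1 := by
  obtain ⟨p0, hp0⟩ := quot
  refine ⟨?_, p0, fun p hp hpp => ?_⟩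
  · obtain ⟨p, hpp, hp⟩ := Nat.exists_infinite_primes p0
    obtain ⟨K, _, -, hU⟩ := hp0 p hp hpp
    obtain ⟨Q, hQ, f, hf, htor, hbd, hdiv⟩ := hU (Filter.hyperfilter ℕ)
    refine ⟨Q, hQ, ⟨fun _ => K, fun _ => inferInstance, Filter.hyperfilter ℕ, ?_, f, hf⟩,
      ⟨?_, hbd⟩, ?_⟩
    · intro i
      exact Filter.notMem_hyperfilter_of_finite (Set.finite_singleton i)
    · intro q
      obtain ⟨m, hm⟩ := htor q
      exact isOfFinOrder_iff_pow_eq_one.2 ⟨p ^ m, pow_pos hp.pos m, hm⟩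
    · intro D hD
      rw [Subgroup.eq_bot_iff_forall]
      intro d hd
      apply hdiv
      intro m
      obtain ⟨x, -, hx⟩ := hD d hd (p ^ m) (pow_pos hp.pos m)
      exact ⟨x, hx⟩
  · obtain ⟨K, hK, hK1, hU⟩ := hp0 p hp hpp
    exact ⟨K, hK, hK1, fun U _ => hU U⟩

end Pool.Agent.Results.MP_70ec2f_al.NoDivisibleSubgroup
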